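import Pool.Agent.helper94.SCT.Spec

set_option autoImplicit false

namespace Pool.Agent.SCT

open Finset ArithmeticFunction MeasureTheory Filter

theorem ASY_core (T W L P κ E : ℝ) (hL : 0 < L) (hP : 0 ≤ P) (hκ : 0 < κ)
    (h1 : (1 - κ) * P ≤ W) (h2 : W ≤ (1 + κ) * P) (h3 : 2 * L ^ 2 * T ≤ W)
    (h4 : W ≤ 2 * L ^ 2 * (1 + 10 / L) * T + E) (hE : E ≤ κ / 2 * P)
    (h5 : 10 / L * (1 + κ) ≤ κ / 2) : |T - P / (2 * L ^ 2)| ≤ κ * (P / L ^ 2) := by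
  have hL2 : 0 < 2 * L ^ 2 := by positivity
  have e1 : 2 * L ^ 2 * (1 + 10 / L) * T = 2 * L ^ 2 * T + 10 / L * (2 * L ^ 2 * T) := by ring
  rw [e1] at h4
  have h6 : 10 / L * (2 * L ^ 2 * T) ≤ 10 / L * ((1 + κ) * P) :=
    mul_le_mul_of_nonneg_left (h3.trans h2) (by positivity)
  have h7 : 10 / L * ((1 + κ) * P) ≤ κ / 2 * P := by
    rw [← mul_assoc]
    exact mul_le_mul_of_nonneg_right h5 hP
  have hlo : (1 - 2 * κ) * P ≤ 2 * L ^ 2 * T := by nlinarith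
  have hup : 2 * L ^ 2 * T ≤ (1 + 2 * κ) * P := by nlinarith
  have e2 : T - P / (2 * L ^ 2) = (2 * L ^ 2 * T - P) / (2 * L ^ 2) := by
    field_simp
  have e3 : κ * (P / L ^ 2) = (2 * κ * P) / (2 * L ^ 2) := by
    field_simp
  rw [e2, e3, abs_div, abs_of_pos hL2]
  apply div_le_div_of_nonneg_right _ hL2.le
  rw [abs_le]
  constructor <;> linarith

theorem ASY (hLOW : LOW_stmt) (hUPP : UPP_stmt) (hPPW : PPW_stmt) : ASY_stmt := by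
  intro ε κ hε hκ
  obtain ⟨x₁, h1⟩ := hLOW ε κ hε hκ
  obtain ⟨x₂, h2⟩ := hUPP ε κ hε hκ
  obtain ⟨x₃, h3⟩ := hPPW
  have ht1 : Tendsto (fun x : ℕ => ((x : ℝ)) ^ (-(1 / 10 : ℝ))) atTop (nhds 0) :=
    (tendsto_rpow_neg_atTop (by norm_num : (0 : ℝ) < 1 / 10)).comp tendsto_natCast_atTop_atTop
  have ht2 : Tendsto (fun x : ℕ => Real.log (x : ℝ)) atTop atTop :=
    Real.tendsto_log_atTop.comp tendsto_natCast_atTop_atTop
  obtain ⟨x₄, h4⟩ := eventually_atTop.1 (ht1.eventually_le_const (half_pos hκ))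
  obtain ⟨x₅, h5⟩ := eventually_atTop.1 (ht2.eventually_ge_atTop (10 * (1 + κ) / (κ / 2)))
  refine ⟨max (max (max x₁ x₂) (max x₃ x₄)) (max x₅ 3), fun x hx B hB1 hB2 => ?_⟩
  have hx1 : x₁ ≤ x := le_trans (by simp) hx
  have hx2 : x₂ ≤ x := le_trans (by simp) hx
  have hx3 : x₃ ≤ x := le_trans (by simp) hx
  have hx4 : x₄ ≤ x := le_trans (by simp) hx
  have hx5 : x₅ ≤ x := le_trans (by simp) hx
  have hx6 : 3 ≤ x := le_trans (by simp) hx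
  have hxr : (3 : ℝ) ≤ (x : ℝ) := by exact_mod_cast hx6
  have hx0 : (0 : ℝ) < (x : ℝ) := by linarith
  have hL : 0 < Real.log x := Real.log_pos (by linarith)
  have hB3 : (x : ℝ) ^ (2 / 3 : ℝ) ≤ B :=
    (Real.rpow_le_rpow_of_exponent_le (by linarith) (by linarith)).trans hB1
  obtain ⟨h6, h7⟩ := h3 x hx3 B hB3 hB2
  have hB0 : (0 : ℝ) ≤ (B : ℝ) := Nat.cast_nonneg B
  refine ASY_core (Tot x B : ℝ) (WT x B) (Real.log x) (B * x) κ (B * (x : ℝ) ^ (9 / 10 : ℝ)) hL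
    (by positivity) hκ (h1 x hx1 B hB1 hB2) (h2 x hx2 B hB1 hB2) h6 h7 ?_ ?_
  · have e1 : (x : ℝ) ^ (9 / 10 : ℝ) = (x : ℝ) ^ (-(1 / 10 : ℝ)) * x := by
      have : (9 / 10 : ℝ) = -(1 / 10 : ℝ) + 1 := by norm_num
      rw [this, Real.rpow_add hx0, Real.rpow_one]
    rw [e1]
    calc (B : ℝ) * ((x : ℝ) ^ (-(1 / 10 : ℝ)) * x) = (x : ℝ) ^ (-(1 / 10 : ℝ)) * (B * x) := by ring
      _ ≤ κ / 2 * (B * x) := mul_le_mul_of_nonneg_right (h4 x hx4) (by positivity)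
  · have h8 := h5 x hx5
    rw [div_le_iff₀ (half_pos hκ)] at h8
    rw [div_mul_eq_mul_div, div_le_iff₀ hL]
    linarith

end Pool.Agent.SCT
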