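import Pool.Agent.helper94.SCT.Spec

set_option autoImplicit false

namespace Pool.Agent.SCT

open Finset ArithmeticFunction MeasureTheory
open scoped ContDiff Topology

/-- continuous functions of compact support times a continuous function are integrable -/
private theorem DEC_int {φ : ℝ → ℝ} (h : Sm φ) (f : ℝ → ℂ) (hf : Continuous f) :
    Integrable (fun u : ℝ => (φ u : ℂ) * f u) := by
  have hc : HasCompactSupport (fun u : ℝ => (φ u : ℂ)) := h.2.comp_left Complex.ofReal_zero
  exact ((Complex.continuous_ofReal.comp h.cont).mul hf).integrable_of_hasCompactSupport hc.mul_right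

private theorem DEC_deriv {φ : ℝ → ℝ} (h : Sm φ) : Sm (deriv φ) := by
  refine ⟨?_, h.2.deriv⟩
  exact (contDiff_infty_iff_deriv.1 h.1).2

private theorem DEC_parts {φ : ℝ → ℝ} (h : Sm φ) (s : ℂ) : s * Mt φ s = -Mt (deriv φ) s := by
  have hd : Differentiable ℝ φ := (contDiff_infty_iff_deriv.1 h.1).1
  have hexp : Continuous fun u : ℝ => Complex.exp (s * u) := by fun_prop
  have h1 := integral_mul_deriv_eq_deriv_mul_of_integrable
    (u := fun u : ℝ => ((φ u : ℝ) : ℂ)) (u' := fun u : ℝ => ((deriv φ u : ℝ) : ℂ))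
    (v := fun u : ℝ => Complex.exp (s * u)) (v' := fun u : ℝ => Complex.exp (s * u) * s)
    (fun x _ => (hd x).hasDerivAt.ofReal_comp)
    (fun x _ => by
      have h2 : HasDerivAt (fun u : ℝ => s * (u : ℂ)) s x := by
        have := (Complex.ofRealCLM.hasDerivAt (x := x)).const_mul s
        simpa using this
      exact h2.cexp)
    (DEC_int h _ (by fun_prop)) (DEC_int (DEC_deriv h) _ hexp) (DEC_int h _ hexp)
  unfold Mt
  rw [← h1, ← integral_const_mul]
  congr 1
  funext u
  ring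

private theorem DEC_zero {φ : ℝ → ℝ} (h : Sm φ) :
    ∃ C : ℝ, 0 < C ∧ ∀ s : ℂ, |s.re| ≤ 2 → ‖Mt φ s‖ ≤ C := by
  obtain ⟨R, hR0, hR1, hR2⟩ := h.bound
  refine ⟨R * Real.exp (2 * R) * (2 * R) + 1, by positivity, ?_⟩
  intro s hs
  have h1 : Mt φ s = ∫ u in Set.Icc (-R) R, (φ u : ℂ) * Complex.exp (s * u) := by
    unfold Mt
    rw [setIntegral_eq_integral_of_forall_compl_eq_zero]
    intro u hu
    have : φ u = 0 := by
      by_contra hc
      exact hu (abs_le.1 (hR1 u hc))
    rw [this]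
    simp
  rw [h1]
  have h2 := norm_setIntegral_le_of_norm_le_const (μ := volume) (s := Set.Icc (-R) R)
    (f := fun u : ℝ => (φ u : ℂ) * Complex.exp (s * u)) (C := R * Real.exp (2 * R))
    (by rw [Real.volume_Icc]; exact ENNReal.ofReal_lt_top)
    (by
      intro u hu
      rw [norm_mul, Complex.norm_exp, Complex.norm_real, Real.norm_eq_abs]
      have h3 : (s * (u : ℂ)).re ≤ 2 * R := by
        have h4 : (s * (u : ℂ)).re = s.re * u := by simp
        rw [h4]
        have h5 : |u| ≤ R := abs_le.2 hu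
        calc s.re * u ≤ |s.re * u| := le_abs_self _
          _ = |s.re| * |u| := abs_mul _ _
          _ ≤ 2 * R := mul_le_mul hs h5 (abs_nonneg _) (by norm_num)
      exact mul_le_mul (hR2 u) (Real.exp_le_exp.2 h3) (Real.exp_pos _).le hR0.le)
  refine h2.trans ?_
  rw [Real.volume_real_Icc_of_le (by linarith)]
  have : R - -R = 2 * R := by ring
  rw [this]
  linarith

private theorem DEC_pow (k : ℕ) : ∀ φ : ℝ → ℝ, Sm φ →
    ∃ C : ℝ, 0 < C ∧ ∀ s : ℂ, |s.re| ≤ 2 → ‖s‖ ^ k * ‖Mt φ s‖ ≤ C := by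
  induction k with
  | zero =>
    intro φ h
    obtain ⟨C, hC, hC'⟩ := DEC_zero h
    exact ⟨C, hC, fun s hs => by simpa using hC' s hs⟩
  | succ k ih =>
    intro φ h
    obtain ⟨C, hC, hC'⟩ := ih (deriv φ) (DEC_deriv h)
    refine ⟨C, hC, fun s hs => ?_⟩
    have h1 := congrArg norm (DEC_parts h s)
    rw [norm_mul, norm_neg] at h1
    rw [pow_succ, mul_assoc, h1]
    exact hC' s hs

private theorem DEC_diff {φ : ℝ → ℝ} (h : Sm φ) : Differentiable ℂ (Mt φ) := by
  intro s₀
  obtain ⟨R, hR0, hR1, hR2⟩ := h.bound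
  have h1 := hasDerivAt_integral_of_dominated_loc_of_deriv_le (μ := (volume : Measure ℝ))
    (𝕜 := ℂ) (F := fun (s : ℂ) (u : ℝ) => (φ u : ℂ) * Complex.exp (s * u))
    (F' := fun (s : ℂ) (u : ℝ) => (φ u : ℂ) * (Complex.exp (s * u) * u))
    (x₀ := s₀) (s := Metric.ball s₀ 1)
    (bound := fun u : ℝ => |φ u| * (Real.exp ((‖s₀‖ + 1) * R) * R))
    (Metric.ball_mem_nhds s₀ one_pos)
    (Filter.Eventually.of_forall fun s => by
      have := h.cont
      have hm : Continuous fun u : ℝ => (φ u : ℂ) * Complex.exp (s * u) := by fun_prop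
      exact hm.aestronglyMeasurable)
    (DEC_int h _ (by fun_prop))
    (by
      have := h.cont
      have hm : Continuous fun u : ℝ => (φ u : ℂ) * (Complex.exp (s₀ * u) * u) := by fun_prop
      exact hm.aestronglyMeasurable)
    (Filter.Eventually.of_forall fun u => by
      intro s hs
      rw [norm_mul, norm_mul, Complex.norm_exp, Complex.norm_real, Complex.norm_real,
        Real.norm_eq_abs, Real.norm_eq_abs]
      by_cases hu : φ u = 0
      · rw [hu]
        simp
      · have h2 := hR1 u hu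
        apply mul_le_mul_of_nonneg_left _ (abs_nonneg _)
        apply mul_le_mul _ h2 (abs_nonneg _) (Real.exp_pos _).le
        apply Real.exp_le_exp.2
        have h3 : ‖s‖ ≤ ‖s₀‖ + 1 := by
          rw [Metric.mem_ball, dist_eq_norm] at hs
          calc ‖s‖ = ‖s₀ + (s - s₀)‖ := by ring_nf
            _ ≤ ‖s₀‖ + ‖s - s₀‖ := norm_add_le _ _
            _ ≤ ‖s₀‖ + 1 := by linarith
        calc (s * (u : ℂ)).re ≤ ‖s * (u : ℂ)‖ := Complex.re_le_norm _
          _ = ‖s‖ * |u| := by rw [norm_mul, Complex.norm_real, Real.norm_eq_abs]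
          _ ≤ (‖s₀‖ + 1) * R := mul_le_mul h3 h2 (abs_nonneg _) (by positivity))
    (by
      have hc : HasCompactSupport fun u : ℝ => |φ u| := by
        have := h.2.comp_left (g := fun x : ℝ => |x|) abs_zero
        exact this
      have hcc : Continuous fun u : ℝ => |φ u| * (Real.exp ((‖s₀‖ + 1) * R) * R) := by
        have := h.cont
        fun_prop
      exact hcc.integrable_of_hasCompactSupport hc.mul_right)
    (Filter.Eventually.of_forall fun u => by
      intro s _
      have h2 : HasDerivAt (fun s : ℂ => s * (u : ℂ)) (u : ℂ) s := by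
        simpa using (hasDerivAt_id s).mul_const (u : ℂ)
      exact h2.cexp.const_mul (φ u : ℂ))
  exact h1.2.differentiableAt

theorem DEC : DEC_stmt := by
  intro φ h
  refine ⟨DEC_diff h, ?_⟩
  intro k
  obtain ⟨C0, hC0, h0⟩ := DEC_zero h
  obtain ⟨C1, hC1, h1⟩ := DEC_pow k φ h
  refine ⟨2 ^ k * (C0 + C1), by positivity, ?_⟩
  intro s hs
  have hpow : (1 + ‖s‖) ^ k ≤ 2 ^ k * (1 + ‖s‖ ^ k) := by
    have hn := norm_nonneg s
    rcases le_total ‖s‖ 1 with h2 | h2
    · calc (1 + ‖s‖) ^ k ≤ 2 ^ k := pow_le_pow_left₀ (by positivity) (by linarith) k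
        _ ≤ 2 ^ k * (1 + ‖s‖ ^ k) := by
            have : 0 ≤ ‖s‖ ^ k := by positivity
            have h3 : (0 : ℝ) < 2 ^ k := by positivity
            nlinarith
    · calc (1 + ‖s‖) ^ k ≤ (2 * ‖s‖) ^ k := pow_le_pow_left₀ (by positivity) (by linarith) k
        _ = 2 ^ k * ‖s‖ ^ k := mul_pow _ _ _
        _ ≤ 2 ^ k * (1 + ‖s‖ ^ k) := by
            have h3 : (0 : ℝ) < 2 ^ k := by positivity
            nlinarith
  calc ‖Mt φ s‖ * (1 + ‖s‖) ^ k ≤ ‖Mt φ s‖ * (2 ^ k * (1 + ‖s‖ ^ k)) :=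
        mul_le_mul_of_nonneg_left hpow (norm_nonneg _)
    _ = 2 ^ k * (‖Mt φ s‖ + ‖s‖ ^ k * ‖Mt φ s‖) := by ring
    _ ≤ 2 ^ k * (C0 + C1) :=
        mul_le_mul_of_nonneg_left (add_le_add (h0 s hs) (h1 s hs)) (by positivity)

end Pool.Agent.SCT
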